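import Pool.Agent.Lib.P4f18dfX.FinX

/-!
# The variance of Möbius sums in short intervals, twisted by all characters modulo almost all primes

`meanSquare χ X H` is the mean square over `x ∈ [X, 2 X]` of the sum of `μ(n) χ(n)` over
`|n - x| < H / 2`. The companion of the conjecture of Good and Churchhouse predicts `H / ζ(2)` for
`μ` itself.

Let `0 < a < 1` and `b > 0`. For large `P` all primes `q` of `(P, 2 P]` but at most `P ^ (a + b)`
satisfy: for ALL nonprincipal characters `χ` modulo `q`, ALL `X` with `P ^ C ≤ X ≤ exp (P ^ c)` and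
ALL `1 ≤ H ≤ P ^ a` the mean square is `H / ζ(2)` up to `P ^ (-c) H`.
-/

set_option autoImplicit false

namespace Pool.Agent.Results.MP_4f18df_nt.AllCharacters

open MeasureTheory

/-- The mean square over `x ∈ [X, 2 X]` of the sum of `μ(n) f(n)` over `|n - x| < H / 2`. -/
noncomputable def meanSquare (f : ℕ → ℂ) (X H : ℝ) : ℝ :=
  (1 / X) * ∫ x in X..(2 * X),
    ‖∑ n ∈ (Finset.range (⌊x + H⌋₊ + 1)).filter (fun n : ℕ => |(n : ℝ) - x| < H / 2),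
      (ArithmeticFunction.moebius n : ℂ) * f n‖ ^ 2

theorem result (a b : ℝ) (ha : 0 < a) (ha1 : a < 1) (hb : 0 < b) :
    ∃ C c : ℝ, 0 < c ∧ ∃ P₀ : ℕ, ∀ P : ℕ, P₀ ≤ P →
      ∃ E : Finset ℕ, (E.card : ℝ) ≤ (P : ℝ) ^ (a + b) ∧
        ∀ q : ℕ, q.Prime → P < q → q ≤ 2 * P → q ∉ E → ∀ χ : DirichletCharacter ℂ q, χ ≠ 1 →
          ∀ X H : ℝ, (P : ℝ) ^ C ≤ X → X ≤ Real.exp ((P : ℝ) ^ c) → 1 ≤ H → H ≤ (P : ℝ) ^ a →
            |meanSquare (fun n => χ (n : ZMod q)) X H - H / (Real.pi ^ 2 / 6)| ≤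
              (P : ℝ) ^ (-c) * H := by
  obtain ⟨C, c, hc, P₀, h⟩ := Pool.Agent.P4f18dfX.main_x a b ha hb ha1
  refine ⟨C, c, hc, P₀, fun P hP => ?_⟩
  obtain ⟨E, hE, h'⟩ := h P hP
  refine ⟨E, hE, fun q h1 h2 h3 h4 χ hχ X H hX1 hX2 hH1 hH2 => ?_⟩
  have h5 := h' q h1 h2 h3 h4 χ hχ X hX1 hX2 H hH1 hH2
  unfold meanSquare
  rw [one_div_mul_eq_div]
  exact h5

end Pool.Agent.Results.MP_4f18df_nt.AllCharacters
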