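import Pool.Agent.Lib.P4f18dfY.LimK

/-!
# The law of Good and Churchhouse for all nonprincipal characters modulo almost all primes

Let `Z` be the sum of `μ(n) f(n)` over the interval of length `H` around `x`, divided by
`√(H / ζ(2))`, where `x` is uniform in `[X, 2 X]` and `f = χ` for a real character `χ`,
`f = √2 Re (u χ)`, `|u| = 1`, for the other characters.

For `b ≥ 0` and `e > 0` there is one set `𝒬` of primes, with all primes of `(P, 2 P]` but at most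
`P ^ (b + e)`, such that for all `δ > 0` and `L` there are `c > 0`, `H₀`, `q₀` with the following
property. For all `q ≥ q₀` of `𝒬`, ALL nonprincipal characters `χ` modulo `q`, all `|u| = 1`, all
`X` from `q ^ (1 + e)` to `exp (q ^ b)` and all `H` from `H₀` to `q ^ c` the distribution function
of `Z` is within `δ` of the one of `N(0, 1)`, and its moments of order at most `L` are within `δ` of
the ones of `N(0, 1)`.
-/

set_option autoImplicit false

namespace Pool.Agent.Results.MP_4f18df_nt.AllCharactersLaw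

open MeasureTheory ProbabilityTheory Filter

/-- `Z = M(x; H) / √(H / ζ(2))`, where `M(x; H)` is the sum of `μ(n) f(n)` over `|n - x| < H / 2`. -/
noncomputable def Z (f : ℕ → ℝ) (H x : ℝ) : ℝ :=
  (∑ n ∈ (Finset.range (⌊x + H⌋₊ + 1)).filter (fun n : ℕ => |(n : ℝ) - x| < H / 2),
    (ArithmeticFunction.moebius n : ℝ) * f n) / Real.sqrt (H / (Real.pi ^ 2 / 6))

/-- The proportion of the `x ∈ [X, 2 X]` with `Z ≤ t`. -/
noncomputable def proportion (f : ℕ → ℝ) (X H t : ℝ) : ℝ :=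
  (volume {x : ℝ | x ∈ Set.Icc X (2 * X) ∧ Z f H x ≤ t}).toReal / X

/-- The `k`-th moment of `Z` over `[X, 2 X]`. -/
noncomputable def moment (f : ℕ → ℝ) (X H : ℝ) (k : ℕ) : ℝ := (∫ x in X..(2 * X), Z f H x ^ k) / X

/-- The distribution function of `Z` over `[X, 2 X]` is within `δ` of the one of the standard normal
law `N(0, 1)` and the `k`-th moment within `δ` of the one of `N(0, 1)`, `k ≤ L`. -/
def NearNormal (δ : ℝ) (L : ℕ) (f : ℕ → ℝ) (X H : ℝ) : Prop :=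
  (∀ t : ℝ, |proportion f X H t - cdf (gaussianReal 0 1) t| ≤ δ) ∧
    ∀ k ≤ L, |moment f X H k - ∫ y, y ^ k ∂(gaussianReal 0 1)| ≤ δ

open Classical in
/-- `χ(n)` for a real character `χ`, `√2 Re (u χ(n))` for the others. -/
noncomputable def twist {q : ℕ} (χ : DirichletCharacter ℂ q) (u : ℂ) (n : ℕ) : ℝ :=
  if χ ^ 2 = 1 then (χ (n : ZMod q)).re else Real.sqrt 2 * (u * χ (n : ZMod q)).re

private theorem fy_eq {q : ℕ} (χ : DirichletCharacter ℂ q) (u : ℂ) :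
    Pool.Agent.P4f18dfY.fy χ u =
      fun n => (ArithmeticFunction.moebius n : ℝ) * twist χ u n := by
  funext n
  unfold Pool.Agent.P4f18dfY.fy twist
  split_ifs
  · rfl
  · unfold Pool.Agent.P4f18dfC.cu Pool.Agent.P4f18dfC.mu
    ring

theorem result (b e : ℝ) (hb : 0 ≤ b) (he : 0 < e) :
    ∃ 𝒬 : Set ℕ, (∀ q ∈ 𝒬, q.Prime) ∧
      (∀ᶠ P : ℕ in atTop,
        ({q : ℕ | q.Prime ∧ P < q ∧ q ≤ 2 * P ∧ q ∉ 𝒬}.ncard : ℝ) ≤ (P : ℝ) ^ (b + e)) ∧
      ∀ (δ : ℝ) (L : ℕ), 0 < δ → ∃ c H₀ : ℝ, ∃ q₀ : ℕ, 0 < c ∧ ∀ q ∈ 𝒬, q₀ ≤ q →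
        ∀ χ : DirichletCharacter ℂ q, χ ≠ 1 → ∀ u : ℂ, ‖u‖ = 1 →
          ∀ X H : ℝ, (q : ℝ) ^ (1 + e) ≤ X → X ≤ Real.exp ((q : ℝ) ^ b) → H₀ ≤ H →
            H ≤ (q : ℝ) ^ c → NearNormal δ L (twist χ u) X H := by
  obtain ⟨𝒬, h1, h2, h3⟩ := Pool.Agent.P4f18dfY.diagK b e hb he
  refine ⟨𝒬, h1, ?_, ?_⟩
  · filter_upwards [h2] with P hP
    have hfin : {q : ℕ | q.Prime ∧ P < q ∧ q ≤ 2 * P ∧ q ∉ 𝒬}.Finite :=
      (Set.finite_Iic (2 * P)).subset fun p hp => hp.2.2.1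
    rw [Set.ncard_eq_toFinset_card _ hfin]
    exact hP _ fun p hp => by simpa using hp
  · intro δ L hδ
    obtain ⟨c, H₀, q₀, hc, h⟩ := h3 δ L hδ
    refine ⟨c, H₀, q₀, hc, fun q hq hq0 χ hχ u hu X H hX1 hX2 hH1 hH2 => ?_⟩
    have h4 := h q hq hq0 X H hX1 hX2 hH1 hH2 χ hχ u hu
    rw [fy_eq] at h4
    exact h4

end Pool.Agent.Results.MP_4f18df_nt.AllCharactersLaw
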