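import Pool.Agent.Lib.P4f18dfF.AX

/-!
# The law of Good and Churchhouse over `F_q[T]`, `q` fixed, in full intervals around almost all `A u ^ p`

`K` is a finite field of odd characteristic `p` (for instance `F_3`), fixed. `M(f; h)` is the sum of the Möbius function of `K[T]` over the interval of the
polynomials `g` with `|g - f| < |K| ^ h`, and `Z = M(f; h) / √(H / ζ(2))` with `H = |K| ^ h`, `1 / ζ(2) = 1 - 1 / |K|`.

The monic polynomials `A`, `w` are arbitrary (`A = 1`: `p`-th powers), `u` runs over the interval `|u - w| < |K| ^ m`, `m ≤ deg w`, `r` over the polynomials of degree less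
than `d`. The constant `C` depends on `K`, `δ` and `k₀` only.

For all pairs `(u, r)` but a proportion `C |K| ^ (-h / 24)` the moments (of orders `k ≤ k₀`) and the law of `Z` for `f` uniform in the FULL interval
`|f - (A u ^ p + r)| < |K| ^ e` are those of the normal law, up to `|K| ^ (-h / 24)` and `δ`. For `d = 0`, where `r = 0`, these are all the intervals around
the `A u ^ p`, `|u - w| < |K| ^ m`, but few.
-/

set_option autoImplicit false

open Polynomial ProbabilityTheory

namespace Pool.Agent.Results.MP_4f18df_nt.FunctionField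

section

variable {K : Type} [Field K]

/-- The Möbius function of `K[T]`: `(-1) ^ r` if `f` is a unit times a product of `r` irreducible polynomials no two of which are associated, `0` if
`f` is not squarefree. -/
noncomputable def moebius (f : K[X]) : ℤ :=
  open Classical in if Squarefree f then (-1) ^ Multiset.card (UniqueFactorizationMonoid.factors f) else 0

/-- The interval `|f - g| < |K| ^ e`. -/
def interval (g : K[X]) (e : ℕ) : Set K[X] := {f | (f - g).degree < (e : WithBot ℕ)}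

/-- `M(f; h)`: the sum of the Möbius function over the interval of length `|K| ^ h` around `f`. -/
noncomputable def M (h : ℕ) (f : K[X]) : ℝ := ∑ᶠ g ∈ interval f h, (moebius g : ℝ)

variable [Fintype K]

/-- `Z = M(f; h) / √(H / ζ(2))`, where `H = |K| ^ h` and `1 / ζ(2) = 1 - 1 / |K|`. -/
noncomputable def Z (h : ℕ) (f : K[X]) : ℝ :=
  M h f / √((Fintype.card K : ℝ) ^ h * (1 - 1 / (Fintype.card K : ℝ)))

/-- For `f` uniform in `W` the `k`-th moments of `Z`, `k ≤ k₀`, are within `η` of those of the normal law, and the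
distribution function is within `δ` of the normal one. -/
def NearNormal (W : Set K[X]) (h k₀ : ℕ) (η δ : ℝ) : Prop :=
  (∀ k ≤ k₀, |(∑ᶠ f ∈ W, Z h f ^ k) / (W.ncard : ℝ) - ∫ y, y ^ k ∂(gaussianReal 0 1)| ≤ η) ∧
    ∀ t : ℝ, |({f : K[X] | f ∈ W ∧ Z h f ≤ t}.ncard : ℝ) / (W.ncard : ℝ) - cdf (gaussianReal 0 1) t| ≤ δ

end

section glue

open Pool.Agent.P4f18dfF Pool.Agent.P4f18dfT

variable {K : Type} [Field K] [Fintype K]

lemma moebius_eq (f : K[X]) : moebius f = P4f18dfF.mu f := rfl

lemma interval_eq (g : K[X]) (e : ℕ) :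
    interval g e = ((P4f18dfF.PL K e).map (addLeftEmbedding g) : Set K[X]) := by
  ext f
  simp only [interval, Set.mem_ofPred_eq, Finset.coe_map, Set.mem_image, Finset.mem_coe,
    P4f18dfF.mem_PL, addLeftEmbedding_apply]
  constructor
  · intro h
    exact ⟨f - g, h, by ring⟩
  · rintro ⟨a, ha, rfl⟩
    simpa using ha

lemma M_eq (h : ℕ) (f : K[X]) : M h f = P4f18dfF.MS h f := by
  unfold M P4f18dfF.MS
  rw [finsum_mem_eq_sum_of_subset (s := interval f h)
    (t := (P4f18dfF.PL K h).map (addLeftEmbedding f)) _ ?_ ?_]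
  · rw [Finset.sum_map]
    rfl
  · rw [interval_eq]; exact Set.inter_subset_left
  · rw [interval_eq]

lemma Z_eq (h : ℕ) (f : K[X]) : Z h f = P4f18dfF.Zn h f := by
  rw [Z, P4f18dfF.Zn, M_eq]

/-- from a family with an injective parametrisation -/
lemma nearNormal_of (W : Set K[X]) (A : Finset K[X]) (φ : K[X] → K[X]) (hφ : Set.InjOn φ A)
    (hW : W = φ '' A) (h k₀ : ℕ) (η δ : ℝ)
    (h1 : ∀ k ≤ k₀, |ex A (fun s => P4f18dfF.Zn h (φ s) ^ k) - gm k| ≤ η)
    (h2 : ∀ t : ℝ, |((A.filter (fun s => P4f18dfF.Zn h (φ s) ≤ t)).card : ℝ) / A.card -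
      cdf (gaussianReal 0 1) t| ≤ δ) :
    NearNormal W h k₀ η δ := by
  classical
  have hW' : W = ((A.image φ : Finset K[X]) : Set K[X]) := by
    rw [hW, Finset.coe_image]
  have hcard : W.ncard = A.card := by
    rw [hW, Set.InjOn.ncard_image hφ, Set.ncard_coe_finset]
  refine ⟨fun k hk => ?_, fun t => ?_⟩
  · have e1 : ∑ᶠ f ∈ W, Z h f ^ k = ∑ s ∈ A, P4f18dfF.Zn h (φ s) ^ k := by
      rw [hW', finsum_mem_coe_finset, Finset.sum_image hφ]
      exact Finset.sum_congr rfl fun s _ => by rw [Z_eq]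
    rw [e1, hcard]
    exact h1 k hk
  · have e1 : {f : K[X] | f ∈ W ∧ Z h f ≤ t} =
        φ '' ((A.filter (fun s => P4f18dfF.Zn h (φ s) ≤ t) : Finset K[X]) : Set K[X]) := by
      ext f
      simp only [Set.mem_ofPred_eq, hW, Set.mem_image, Finset.mem_coe, Finset.mem_filter]
      constructor
      · rintro ⟨⟨s, hs, rfl⟩, hz⟩
        rw [Z_eq] at hz
        exact ⟨s, ⟨hs, hz⟩, rfl⟩
      · rintro ⟨s, ⟨hs, hz⟩, rfl⟩
        exact ⟨⟨s, hs, rfl⟩, by rw [Z_eq]; exact hz⟩
    rw [e1, hcard, Set.InjOn.ncard_image (hφ.mono (Finset.coe_subset.2 (Finset.filter_subset _ _))),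
      Set.ncard_coe_finset]
    exact h2 t

end glue

theorem result (K : Type) [Field K] [Fintype K] (hK : ringChar K ≠ 2) (δ : ℝ) (hδ : 0 < δ) (k₀ : ℕ) :
    ∃ C : ℝ, 0 < C ∧ ∀ (h e d m : ℕ) (A w : K[X]), A.Monic → w.Monic → m ≤ w.natDegree → C ≤ h →
      C * h ≤ e → C * (h + A.natDegree) ≤ max (d : ℝ) e → C * max (d : ℝ) e ≤ m →
        ∃ E : Set (K[X] × K[X]), E.Finite ∧
          (E.ncard : ℝ) ≤ C * (Fintype.card K : ℝ) ^ ((m : ℝ) + d - (h : ℝ) / 24) ∧
          ∀ u r : K[X], (u - w).degree < (m : WithBot ℕ) → r.degree < (d : WithBot ℕ) → (u, r) ∉ E →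
            NearNormal (interval (A * u ^ ringChar K + r) e) h k₀
              ((Fintype.card K : ℝ) ^ (-(h : ℝ) / 24)) δ := by
  classical
  have _i1 : CharP K (ringChar K) := ringChar.charP K
  have _i2 : Fact (ringChar K).Prime := ⟨CharP.char_is_prime K (ringChar K)⟩
  obtain ⟨C, hC, h₁⟩ := P4f18dfF.windowsA_law (K := K) (ringChar K) hK δ hδ k₀
  have hq := P4f18dfF.q_one K
  have hq0 : (0 : ℝ) < Fintype.card K := by linarith
  refine ⟨C, by linarith, fun h e d m A w hAm hwm hmw hCh a1 a2 a3 => ?_⟩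
  have hmax : ((max d e : ℕ) : ℝ) = max (d : ℝ) e := by push_cast; rfl
  rw [← hmax] at a2 a3
  obtain ⟨E, -, hE1, hE2⟩ := h₁ h e d m A w hAm hwm hmw hCh a1 a2 a3
  refine ⟨(fun x : K[X] × K[X] => (w + x.1, x.2)) '' (E : Set (K[X] × K[X])),
    E.finite_toSet.image _, ?_, ?_⟩
  · refine le_trans ?_ hE1
    have h5 := Set.ncard_image_le (f := fun x : K[X] × K[X] => (w + x.1, x.2)) E.finite_toSet
    rw [Set.ncard_coe_finset] at h5
    exact_mod_cast h5
  · intro u r hu hr hurE
    have h6 : (u - w, r) ∉ E := by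
      intro hh
      apply hurE
      refine ⟨(u - w, r), Finset.mem_coe.2 hh, ?_⟩
      simp
    obtain ⟨b1, b2⟩ := hE2 (u - w) (P4f18dfF.mem_PL.2 hu) r (P4f18dfF.mem_PL.2 hr) h6
    rw [add_sub_cancel] at b1 b2
    simp_rw [← add_assoc] at b1 b2
    refine nearNormal_of _ (P4f18dfF.PL K e) (fun s => A * u ^ ringChar K + r + s)
      (fun a _ b _ hab => by simpa using hab) ?_ h k₀ _ δ b1 b2
    rw [interval_eq, Finset.coe_map]
    rfl

end Pool.Agent.Results.MP_4f18df_nt.FunctionField
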