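import Pool.Agent.Lib.P4f18dfS.Fin4

/-!
# The variance of the Möbius function in short intervals is at least of the conjectured order

`M(x; H)` is the sum of `μ(n)` over `|n - x| < H / 2`. For every `ε` in `(0, 1)` there is `c > 0` such that for
every large `T` and every `1 ≤ Y ≤ T ^ (1 / ε)`:
the integral of `M(x; H) ^ 2 / H` with `H = x / T` over `Y ≤ x ≤ Y T ^ (1 + ε)` against `dx / x` is at least `c log T`;
and there are `X` with `[X, 2X]` inside `[Y, Y T ^ (1 + ε)]` and `X / T ≤ H ≤ 8 X / T` for which the mean square of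
`M(x; H)` over `x` in `[X, 2X]` is at least `c H`. Unconditional.
-/

set_option autoImplicit false

namespace Pool.Agent.Results.MP_4f18df_nt.VarianceLower

theorem result (ε : ℝ) (hε : 0 < ε) (hε1 : ε < 1) :
    ∃ c T₀ : ℝ, 0 < c ∧ ∀ T : ℝ, T₀ ≤ T → ∀ Y : ℝ, 1 ≤ Y → Y ≤ T ^ (1 / ε) →
      (c * Real.log T ≤ ∫ x in Y..(Y * T ^ (1 + ε)),
        (∑ n ∈ (Finset.range (⌊x + x / T⌋₊ + 1)).filter (fun n : ℕ => |(n : ℝ) - x| < x / T / 2),
          ((ArithmeticFunction.moebius n : ℤ) : ℝ)) ^ 2 / (x / T) / x) ∧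
      ∃ X H : ℝ, Y ≤ X ∧ 2 * X ≤ Y * T ^ (1 + ε) ∧ X / T ≤ H ∧ H ≤ 8 * X / T ∧
        c * H ≤ (1 / X) * ∫ x in X..(2 * X),
          (∑ n ∈ (Finset.range (⌊x + H⌋₊ + 1)).filter (fun n : ℕ => |(n : ℝ) - x| < H / 2),
            ((ArithmeticFunction.moebius n : ℤ) : ℝ)) ^ 2 := by
  obtain ⟨c1, T1, hc1, h1⟩ := Pool.Agent.P4f18dfS.sharp_log ε hε hε1
  obtain ⟨c2, T2, hc2, h2⟩ := Pool.Agent.P4f18dfS.sharp_variance ε hε hε1
  refine ⟨min c1 c2, max (max T1 T2) 4, lt_min hc1 hc2, fun T hT Y hY1 hY => ?_⟩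
  have hT1 : T1 ≤ T := (le_max_left _ _).trans ((le_max_left _ _).trans hT)
  have hT2 : T2 ≤ T := (le_max_right _ _).trans ((le_max_left _ _).trans hT)
  have hT4 : 4 ≤ T := (le_max_right _ _).trans hT
  have hL : 0 ≤ Real.log T := Real.log_nonneg (by linarith)
  refine ⟨?_, ?_⟩
  · exact (mul_le_mul_of_nonneg_right (min_le_left c1 c2) hL).trans (h1 T hT1 Y hY1 hY)
  · obtain ⟨X, H, a1, a2, a3, a4, a5⟩ := h2 T hT2 Y hY1 hY
    have hX : 0 < X := by linarith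
    have hH : 0 ≤ H := le_trans (by positivity) a3
    exact ⟨X, H, a1, a2, a3, a4, (mul_le_mul_of_nonneg_right (min_le_right c1 c2) hH).trans a5⟩

end Pool.Agent.Results.MP_4f18df_nt.VarianceLower
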